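import Pool.Agent.Q103.SG.Chain

/-!
# `ℓ²`-Betti numbers of compact aspherical manifolds with boundary, and boundary subgroups

Let `M` be a compact aspherical `n`-manifold with non-empty boundary and infinite fundamental group
`G`, `n ≥ 2`, and let `P ≤ G` be the image of the fundamental group of a component of the boundary.
Theorem: if `b_(n-1)(M) ≠ 0` then `P` is contained in a subgroup `H` of `G` of infinite index which is
weakly malnormal (`H ∩ g H g⁻¹` is finite for all `g ∉ H`) and which contains every finitely generated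
subgroup `Q` of `G` with `b_1(Q) = 0` and infinite `H ∩ Q`, for instance every finitely generated
amenable subgroup, or every finitely generated subgroup with an infinite amenable normal subgroup,
which meets `H` in an infinite set.  Since `b_n(M) = 0`, this is a necessary condition for
counterexamples of dimension `n ≤ 4` to the conjecture of Okun and Schreve; all other compact
aspherical `n`-manifolds with boundary, `n ≤ 4`, satisfy the conjecture.

Algebraic form.  The cellular chain complex of the universal covering is a finite free resolution of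
`ℤ`.  Poincaré-Lefschetz duality and the vanishing of `H_1` of the universal covering say that
`H^n(G; ℤ[G]) = 0` and that `H^(n-1)(G; ℤ[G])`, up to the orientation character `w`, is the kernel
of the augmentation `ℤ[B] → ℤ`, where `B` is the set of the boundary components of the universal
covering.  The stabilizers of the elements of `B` are infinite (a compact boundary component of a
contractible non-compact manifold would be a non-trivial cycle).  These are our hypotheses, so the
theorem holds for Poincaré duality pairs, too.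

Idea of the proof.  By duality a harmonic cochain in degree `n - 1` is an equivariant map from
`ker (ℤ[B] → ℤ)` to `ℓ²(G)`, so it gives a cocycle `G → ℓ²(G)` which vanishes on the stabilizer `P` of a
point of `B`, and the map is zero if the cocycle is zero, because the other stabilizers are infinite.
The zeros of a cocycle form a weakly malnormal subgroup `H`; and `H` contains `Q` if `H ∩ Q` is
infinite and `b_1(Q) = 0`, by the lemma `coc_zero` (the closed space of the cocycles `Q → ℓ²(Q)` which
vanish on an infinite subgroup is contained in the closure of the coboundaries and meets the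
coboundaries only in zero, so its von Neumann dimension is zero).
-/

set_option autoImplicit false

namespace Pool.Agent.Results.MP_8fe54c_gt.BoundarySubgroups

open scoped Matrix

/-- `(c, D, ε)` is a finite free resolution of the trivial module `ℤ`: the module in degree `i` is
`ℤ[G]^(c i)` (row vectors), the boundary operators are `v ↦ v D_i`, and `c i = 0` for `i > m`. -/
structure IsFiniteFreeResolution {G : Type} [Group G] (c : ℕ → ℕ)
    (D : ∀ i, Matrix (Fin (c (i + 1))) (Fin (c i)) (MonoidAlgebra ℤ G))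
    (ε : (Fin (c 0) → MonoidAlgebra ℤ G) →+ ℤ) (m : ℕ) : Prop where
  bounded : ∀ i, m < i → c i = 0
  surjective : Function.Surjective ε
  equivariant : ∀ (g : G) (v : Fin (c 0) → MonoidAlgebra ℤ G), ε (MonoidAlgebra.of ℤ G g • v) = ε v
  exact_zero : ∀ v, ε v = 0 ↔ ∃ u, u ᵥ* D 0 = v
  exact_succ : ∀ (i : ℕ) (v : Fin (c (i + 1)) → MonoidAlgebra ℤ G),
    v ᵥ* D i = 0 ↔ ∃ u, u ᵥ* D (i + 1) = v

/-- The Euler characteristic `∑ (-1)^i c_i`. -/
def eulerCharacteristic (c : ℕ → ℕ) (m : ℕ) : ℤ := ∑ i ∈ Finset.range (m + 1), (-1) ^ i * (c i : ℤ)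

/-- The Hilbert space `ℓ²(G)` (with real scalars). -/
abbrev EllTwo (G : Type) : Type := lp (fun _ : G => ℝ) 2

/-- The Hilbert space `ℓ²(G)^k` of the `ℓ²`-cochains on `ℤ[G]^k`. -/
abbrev Cochains (G : Type) (k : ℕ) : Type := PiLp 2 (fun _ : Fin k => EllTwo G)

/-- The action of the group ring: `(r f)(x) = ∑_g r_g f(g⁻¹ x)`. -/
noncomputable def act {G : Type} [Group G] (r : MonoidAlgebra ℤ G) (f : G → ℝ) (x : G) : ℝ :=
  r.coeff.sum fun g k => (k : ℝ) * f (g⁻¹ * x)

/-- `z` is the coboundary of `y` for the boundary operator `v ↦ v D`. -/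
def IsCoboundary {G : Type} [Group G] {a b : ℕ} (D : Matrix (Fin b) (Fin a) (MonoidAlgebra ℤ G))
    (y : Cochains G a) (z : Cochains G b) : Prop :=
  ∀ (j : Fin b) (x : G), z j x = ∑ k, act (D j k) (y k) x

/-- The harmonic `ℓ²`-cochains in degree `i` (a closed subspace isomorphic to the reduced
`ℓ²`-(co)homology): the coboundary of `u` is zero, and `u` is orthogonal to all coboundaries. -/
def Harmonic {G : Type} [Group G] (c : ℕ → ℕ)
    (D : ∀ i, Matrix (Fin (c (i + 1))) (Fin (c i)) (MonoidAlgebra ℤ G)) :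
    ∀ i, Set (Cochains G (c i))
  | 0 => {u | IsCoboundary (D 0) u 0}
  | (i + 1) => {u | IsCoboundary (D (i + 1)) u 0 ∧ ∀ y z, IsCoboundary (D i) y z → inner ℝ z u = 0}

open scoped Classical in
/-- The von Neumann dimension of the closed linear span `W'` of `W ⊆ ℓ²(G)^k`:
`∑_j ⟨P e_j, e_j⟩`, where `P` is the orthogonal projection to `W'` and `e_j` is the unit vector at the
identity element in the `j`-th component. -/
noncomputable def vonNeumannDim {G : Type} [Group G] {k : ℕ} (W : Set (Cochains G k)) : ℝ :=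
  haveI : CompleteSpace (Submodule.span ℝ W).topologicalClosure :=
    (Submodule.span ℝ W).isClosed_topologicalClosure.completeSpace_coe
  ∑ j : Fin k, (Submodule.span ℝ W).topologicalClosure.starProjection
    (WithLp.toLp 2 (Pi.single j (lp.single 2 (1 : G) (1 : ℝ)))) j 1

/-- The `i`-th `ℓ²`-Betti number. -/
noncomputable def l2Betti {G : Type} [Group G] (c : ℕ → ℕ)
    (D : ∀ i, Matrix (Fin (c (i + 1))) (Fin (c i)) (MonoidAlgebra ℤ G)) (i : ℕ) : ℝ :=
  vonNeumannDim (Harmonic c D i)

/-- Cocycles with coefficients in `ℤ[G]`: a column vector `u` stands for the equivariant cochain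
`v ↦ v ⬝ u`, and its coboundary is `D u`. -/
def IsCocycle {G : Type} [Group G] {b d : ℕ} (D : Matrix (Fin d) (Fin b) (MonoidAlgebra ℤ G))
    (u : Fin b → MonoidAlgebra ℤ G) : Prop := D *ᵥ u = 0

/-- The augmentation `ℤ[B] → ℤ`. -/
def augmentation {B : Type} (z : B →₀ ℤ) : ℤ := z.sum fun _ k => k

/-- The map `z ↦ w(g) g⁻¹ z` of `ℤ[B]`. -/
noncomputable def twist {G : Type} [Group G] (w : G →* ℤˣ) {B : Type} [MulAction G B] (g : G)
    (z : B →₀ ℤ) : B →₀ ℤ := ((w g : ℤˣ) : ℤ) • Finsupp.mapDomain (fun p => g⁻¹ • p) z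

/-- The multiplication of a column vector by `g` from the right. -/
noncomputable def rightMul {G : Type} [Group G] {b : ℕ} (u : Fin b → MonoidAlgebra ℤ G) (g : G) :
    Fin b → MonoidAlgebra ℤ G := fun j => u j * MonoidAlgebra.of ℤ G g

/-- Lefschetz duality in the degrees `n` and `n - 1`, where `D₁`, `D₀` are the boundary operators in
the degrees `n` and `n - 1`: `H^n(G; ℤ[G]) = 0`, and `θ` induces an isomorphism of `H^(n-1)(G; ℤ[G])`
with the kernel of the augmentation `ℤ[B] → ℤ`, where `g ∈ G` acts on the cohomology by right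
multiplication and on `ℤ[B]` by `z ↦ w(g) g⁻¹ z`. -/
structure BoundaryDuality {G : Type} [Group G] {a b d : ℕ}
    (D₀ : Matrix (Fin b) (Fin a) (MonoidAlgebra ℤ G))
    (D₁ : Matrix (Fin d) (Fin b) (MonoidAlgebra ℤ G)) (w : G →* ℤˣ) (B : Type)
    [MulAction G B] : Prop where
  top : ∀ y, ∃ u, D₁ *ᵥ u = y
  next : ∃ θ : (Fin b → MonoidAlgebra ℤ G) → (B →₀ ℤ),
    (∀ u v, IsCocycle D₁ u → IsCocycle D₁ v → θ (u + v) = θ u + θ v) ∧
    (∀ u, IsCocycle D₁ u → (θ u = 0 ↔ ∃ t, D₀ *ᵥ t = u)) ∧
    (∀ z, (∃ u, IsCocycle D₁ u ∧ θ u = z) ↔ augmentation z = 0) ∧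
    ∀ g u, IsCocycle D₁ u → θ (rightMul u g) = twist w g (θ u)

/-- The group of cocycles (used in the proof). -/
def cocycles {G : Type} [Group G] {b d : ℕ} (D : Matrix (Fin d) (Fin b) (MonoidAlgebra ℤ G)) :
    AddSubgroup (Fin b → MonoidAlgebra ℤ G) where
  carrier := {u | D *ᵥ u = 0}
  add_mem' {u v} hu hv := by
    change D *ᵥ (u + v) = 0
    rw [Matrix.mulVec_add, hu, hv, add_zero]
  zero_mem' := Matrix.mulVec_zero _
  neg_mem' {u} hu := by
    change D *ᵥ (-u) = 0
    rw [Matrix.mulVec_neg, hu, neg_zero]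

/-- The first `ℓ²`-Betti number of the finitely generated group `Q` is zero: the reduced first
cohomology with coefficients in `ℓ²(Q)` vanishes, that is, every cocycle `c : Q → ℓ²(Q)` is a
pointwise limit of coboundaries `g ↦ g u - u`, where `(g u)(x) = u(g⁻¹ x)`. -/
def FirstBettiZero (Q : Type) [Group Q] : Prop :=
  ∀ c : Q → EllTwo Q, (∀ g h x, c (g * h) x = c g x + c h (g⁻¹ * x)) →
    ∀ (T : Finset Q) (δ : ℝ), 0 < δ → ∃ u : EllTwo Q, ∀ g ∈ T, ∃ v : EllTwo Q,
      (∀ x, v x = c g x - (u (g⁻¹ * x) - u x)) ∧ ‖v‖ < δ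

/-- `H` is weakly malnormal: `H ∩ g H g⁻¹` is finite for all `g ∉ H`. -/
def WeaklyMalnormal {G : Type} [Group G] (H : Subgroup G) : Prop :=
  ∀ g, g ∉ H → {h : G | h ∈ H ∧ g⁻¹ * h * g ∈ H}.Finite

/-- `H` contains the finitely generated subgroups with vanishing first `ℓ²`-Betti number which meet
it in an infinite set. -/
def Absorbing {G : Type} [Group G] (H : Subgroup G) : Prop :=
  ∀ Q : Subgroup G, Q.FG → FirstBettiZero Q → {h : G | h ∈ H ∧ h ∈ Q}.Infinite → Q ≤ H

/-- The conclusions in dimension `n = q + 2`, with `b_i` the `ℓ²`-Betti numbers and `χ` the Euler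
characteristic of the complex `(c, D)`: `b_i = 0` for `i = 0` and for `i ≥ n - 1`, so
`χ = ∑_(1 ≤ i ≤ n - 2) (-1)^i b_i`; and if `n ≤ 4` then `b_i = 0` for all `i > n / 2`. -/
structure Vanishing {G : Type} [Group G] (q : ℕ) (c : ℕ → ℕ)
    (D : ∀ i, Matrix (Fin (c (i + 1))) (Fin (c i)) (MonoidAlgebra ℤ G)) : Prop where
  bottom : l2Betti c D 0 = 0
  top : ∀ i, q + 1 ≤ i → l2Betti c D i = 0
  euler : (eulerCharacteristic c (q + 2) : ℝ) = ∑ i ∈ Finset.Icc 1 q, (-1) ^ i * l2Betti c D i
  above : q + 2 ≤ 4 → ∀ i, q + 2 < 2 * i → l2Betti c D i = 0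

section bridge

open Pool.Agent.Q103.SG Pool.Agent.Helper386.PD3

variable {G : Type} [Group G]

theorem la_eq_act (r : RR G) (f : L2 G) (x : G) : la r f x = act r f x := by
  induction r using rr_ind with
  | h1 g =>
    rw [la_of, act]
    change f (g⁻¹ * x) = (Finsupp.single g (1 : ℤ)).sum fun g k => (k : ℝ) * f (g⁻¹ * x)
    rw [Finsupp.sum_single_index (by simp)]
    simp
  | h2 r s hr hs =>
    rw [la_add]
    change la r f x + la s f x = _
    rw [hr, hs, act, act, act, MonoidAlgebra.coeff_add, Finsupp.sum_add_index']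
    · intro g
      simp
    · intro g k l
      push_cast
      ring
  | h3 r hr =>
    rw [map_neg]
    change -(la r f x) = _
    rw [hr, act, act, MonoidAlgebra.coeff_neg, Finsupp.sum_neg_index (by simp), Finsupp.sum,
      Finsupp.sum, ← Finset.sum_neg_distrib]
    refine Finset.sum_congr rfl fun g _ => ?_
    push_cast
    ring

theorem isCoboundary_iff {a b : ℕ} (D : Matrix (Fin b) (Fin a) (RR G)) (y : VV G a) (z : VV G b) :
    IsCoboundary D y z ↔ z = cob D y := by
  have h1 : ∀ j x, (cob D y) j x = ∑ k, act (D j k) (y k) x := by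
    intro j x
    rw [cob_apply, pr]
    have : (∑ k, la (D j k) (y k) : L2 G) x = ∑ k, (la (D j k) (y k)) x :=
      map_sum (lp.evalCLM ℝ (fun _ : G => ℝ) 2 x) _ _
    rw [this]
    exact Finset.sum_congr rfl fun k _ => la_eq_act _ _ _
  constructor
  · intro h
    apply vv_ext
    intro j
    ext x
    rw [h1]
    exact h j x
  · rintro rfl j x
    exact h1 j x

theorem harmonic_eq (c : ℕ → ℕ) (D : ∀ i, Matrix (Fin (c (i + 1))) (Fin (c i)) (RR G)) (i : ℕ) :
    Harmonic c D i = (Hm c D i : Set (VV G (c i))) := by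
  cases i with
  | zero =>
    ext u
    change IsCoboundary (D 0) u 0 ↔ cob (D 0) u = 0 ∧ _
    rw [isCoboundary_iff]
    constructor
    · intro h
      exact ⟨h.symm, fun y => inner_zero_left _⟩
    · intro h
      exact h.1.symm
  | succ i =>
    ext u
    change (IsCoboundary (D (i + 1)) u 0 ∧ ∀ y z, IsCoboundary (D i) y z → inner ℝ z u = 0) ↔
      cob (D (i + 1)) u = 0 ∧ ∀ y, inner ℝ (cob (D i) y) u = 0
    rw [isCoboundary_iff]
    constructor
    · intro h
      exact ⟨h.1.symm, fun y => h.2 y _ ((isCoboundary_iff _ _ _).2 rfl)⟩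
    · intro h
      refine ⟨h.1.symm, fun y z hz => ?_⟩
      rw [(isCoboundary_iff _ _ _).1 hz]
      exact h.2 y

theorem dim_eq {k : ℕ} (W : Submodule ℝ (VV G k)) : vonNeumannDim (W : Set (Cochains G k)) = vd W := by
  have h : vonNeumannDim (W : Set (Cochains G k)) = vd (Submodule.span ℝ (W : Set (VV G k))) := rfl
  rw [h, Submodule.span_eq W]

theorem betti_eq (c : ℕ → ℕ) (D : ∀ i, Matrix (Fin (c (i + 1))) (Fin (c i)) (RR G)) (i : ℕ) :
    l2Betti c D i = vd (Hm c D i) := by
  rw [l2Betti, harmonic_eq, dim_eq]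

end bridge

theorem approx_of {Q : Type} [Group Q] (h : FirstBettiZero Q) : Pool.Agent.Q103.SG.Approx Q := by
  intro b hb T δ hδ
  obtain ⟨u, hu⟩ := h b (fun g k x => by
    rw [hb]
    rfl) T δ hδ
  refine ⟨u, fun g hg => ?_⟩
  obtain ⟨v, h1, h2⟩ := hu g hg
  have h3 : v = b g - (Pool.Agent.Helper386.PD3.lam2 g u - u) := by
    ext x
    rw [h1]
    rfl
  rwa [← h3]

/-- The zeros of a cocycle form a weakly malnormal subgroup. -/
theorem van_malnormal {G : Type} [Group G] {c : G → Pool.Agent.Helper386.PD3.L2 G}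
    (hc : ∀ g h, c (g * h) = c g + Pool.Agent.Helper386.PD3.lam2 g (c h)) :
    WeaklyMalnormal (Pool.Agent.Q103.SG.vanS c hc) := by
  intro g hg
  by_contra hinf
  apply hg
  let H := Pool.Agent.Q103.SG.vanS c hc
  let S : Subgroup G := H ⊓ H.comap (MulAut.conj g⁻¹).toMonoidHom
  have hS : ∀ s, s ∈ S ↔ s ∈ H ∧ g⁻¹ * s * g ∈ H := by
    intro s
    rw [Subgroup.mem_inf, Subgroup.mem_comap]
    change s ∈ H ∧ g⁻¹ * s * g⁻¹⁻¹ ∈ H ↔ _
    rw [inv_inv]
  have hSi : Infinite S := by
    have h1 : (S : Set G) = {h : G | h ∈ H ∧ g⁻¹ * h * g ∈ H} := Set.ext fun s => hS s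
    have h2 : (S : Set G).Infinite := by
      rw [h1]
      exact hinf
    exact h2.to_subtype
  exact Pool.Agent.Q103.SG.van_conj hc H (fun h hh => hh) g S hSi (fun s hs => ((hS s).1 hs).1)
    fun s hs => ((hS s).1 hs).2

/-- The zeros of a cocycle form an absorbing subgroup. -/
theorem van_absorbing {G : Type} [Group G] {c : G → Pool.Agent.Helper386.PD3.L2 G}
    (hc : ∀ g h, c (g * h) = c g + Pool.Agent.Helper386.PD3.lam2 g (c h)) :
    Absorbing (Pool.Agent.Q103.SG.vanS c hc) := by
  intro Q hQ hb hinf g hg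
  let H := Pool.Agent.Q103.SG.vanS c hc
  have hSi : Infinite (H ⊓ Q : Subgroup G) := by
    have h1 : ((H ⊓ Q : Subgroup G) : Set G) = {h : G | h ∈ H ∧ h ∈ Q} := rfl
    have h2 : ((H ⊓ Q : Subgroup G) : Set G).Infinite := by
      rw [h1]
      exact hinf
    exact h2.to_subtype
  exact Pool.Agent.Q103.SG.coc_zero_sub (approx_of hb) hQ H hSi c hc (fun s hs => hs) hg

/-- A proper weakly malnormal subgroup of an infinite group has infinite index. -/
theorem index_zero {G : Type} [Group G] [Infinite G] {H : Subgroup G} (hH : WeaklyMalnormal H)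
    (hne : H ≠ ⊤) : H.index = 0 := by
  by_contra hi
  have hfi : H.FiniteIndex := ⟨hi⟩
  apply hne
  rw [Subgroup.eq_top_iff']
  intro g
  by_contra hg
  have h1 := hH g hg
  have h2 : (H.normalCore : Set G).Finite := by
    refine h1.subset fun s hs => ⟨H.normalCore_le hs, ?_⟩
    have h3 := H.normalCore_normal.conj_mem s hs g⁻¹
    rw [inv_inv] at h3
    exact H.normalCore_le h3
  have h4 : Finite H.normalCore := h2.to_subtype
  have h5 : Finite G := (Subgroup.finite_iff_finite_and_finiteIndex H.normalCore).2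
    ⟨h4, inferInstance⟩
  exact not_finite_iff_infinite.2 ‹Infinite G› h5

/-- **Vanishing above the middle dimension, or malnormal subgroups.**  Let `(c, D, ε)` be a finite
free resolution of `ℤ` over `ℤ[G]` of length at most `n = q + 2`, for instance the cellular chain
complex of the universal covering of a compact aspherical `n`-manifold `M` with non-empty boundary.
Suppose that Lefschetz duality holds in the degrees `n`, `n - 1`, where `B` is a `G`-set with infinite
stabilizers (the set of the boundary components of the universal covering), and let `p₀ ∈ B`.  Then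
the stabilizer of `p₀` (the image of the fundamental group of a boundary component of `M`) is
contained in a weakly malnormal subgroup `H` of infinite index in `G` which contains all finitely
generated subgroups of `G` with vanishing first `ℓ²`-Betti number which meet it in an infinite set; or
`b_i = 0` for `i ≥ n - 1`, so that `b_i = 0` for all `i > n / 2` if `n ≤ 4`. -/
theorem result {q : ℕ} {G : Type} [Group G] {c : ℕ → ℕ}
    {D : ∀ i, Matrix (Fin (c (i + 1))) (Fin (c i)) (MonoidAlgebra ℤ G)}
    {ε : (Fin (c 0) → MonoidAlgebra ℤ G) →+ ℤ} (hD : IsFiniteFreeResolution c D ε (q + 2))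
    {B : Type} [MulAction G B] (hB : ∀ p : B, Infinite (MulAction.stabilizer G p))
    (w : G →* ℤˣ) (hdual : BoundaryDuality (D q) (D (q + 1)) w B) (p₀ : B) :
    (∃ H : Subgroup G, MulAction.stabilizer G p₀ ≤ H ∧ H.index = 0 ∧ WeaklyMalnormal H ∧
      Absorbing H) ∨ Vanishing q c D := by
  have hst := hB p₀
  have hinf : Infinite G := Infinite.of_injective
    (Subtype.val : MulAction.stabilizer G p₀ → G) Subtype.val_injective
  have hne : Nonempty B := ⟨p₀⟩
  by_cases hp : ∀ c : G → Pool.Agent.Helper386.PD3.L2 G,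
      (∀ g h, c (g * h) = c g + Pool.Agent.Helper386.PD3.lam2 g (c h)) →
      (∀ s ∈ MulAction.stabilizer G p₀, c s = 0) → ∀ g, c g = 0
  · right
    have hR : Pool.Agent.Helper158.Reso (fun i => Fin (c i) → MonoidAlgebra ℤ G)
        (Pool.Agent.Q103.SG.bd c D) ε :=
      ⟨hD.surjective, hD.equivariant, hD.exact_zero, hD.exact_succ⟩
    have h0 : l2Betti c D 0 = 0 := by
      rw [betti_eq]
      exact Pool.Agent.Q103.SG.vd_bot (Pool.Agent.Q103.SG.free_zero c D hR)
    have h1 : ∀ i, q + 1 ≤ i → l2Betti c D i = 0 := by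
      intro i hi
      rw [betti_eq]
      refine Pool.Agent.Q103.SG.vd_bot ?_
      rcases Nat.lt_or_ge i (q + 2) with h2 | h2
      · obtain rfl : i = q + 1 := by omega
        intro x hx
        obtain ⟨θ, t0, t1, t2, t3⟩ := hdual.next
        refine Pool.Agent.Q103.SG.bdry_one_of w
          (fun β b1 b2 => Pool.Agent.Q103.SG.pair_zero_of hB p₀ hp β b1 b2) hdual.top
          (cocycles (D (q + 1))) (fun _ => Iff.rfl) (AddMonoidHom.mk' (fun u => θ u.1)
            fun u v => t0 u.1 v.1 u.2 v.2) (fun u hu => (t1 u.1 u.2).1 hu) ?_ ?_ hx.1 hx.2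
        · intro z
          refine Iff.trans ?_ (t2 z)
          constructor
          · rintro ⟨u, hu⟩
            exact ⟨u.1, u.2, hu⟩
          · rintro ⟨u, h, hu⟩
            exact ⟨⟨u, h⟩, hu⟩
        · intro g u u' h
          have h1 := t3 g u.1 u.2
          have h2 : rightMul u.1 g = u'.1 := funext fun j => (h j).symm
          rw [h2] at h1
          exact h1
      · rcases Nat.lt_or_ge i (q + 3) with h3 | h3
        · obtain rfl : i = q + 2 := by omega
          intro x hx
          exact Pool.Agent.Q103.SG.bdry_zero hdual.top hx.2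
        · intro x _
          apply Pool.Agent.Helper386.PD3.vv_ext
          intro k
          have h8 := k.isLt
          have h9 := hD.bounded i (by omega)
          omega
    have h3 : (eulerCharacteristic c (q + 2) : ℝ) =
        ∑ i ∈ Finset.Icc 1 q, (-1) ^ i * l2Betti c D i := by
      have e1 : (eulerCharacteristic c (q + 2) : ℝ) =
          ∑ i ∈ Finset.range (q + 3), (-1 : ℝ) ^ i * l2Betti c D i := by
        rw [eulerCharacteristic]
        push_cast
        rw [Pool.Agent.Q103.SG.free_euler c D hR (q + 2) hD.bounded]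
        exact Finset.sum_congr rfl fun i _ => by rw [betti_eq]
      rw [e1]
      symm
      refine Finset.sum_subset (fun i hi => ?_) fun i _ hi => ?_
      · rw [Finset.mem_Icc] at hi
        rw [Finset.mem_range]
        omega
      · rw [Finset.mem_Icc] at hi
        rcases Nat.eq_zero_or_pos i with h4 | h4
        · rw [h4, h0, mul_zero]
        · rw [h1 i (by omega), mul_zero]
    exact ⟨h0, h1, h3, fun hq i hi => h1 i (by omega)⟩
  · left
    push Not at hp
    obtain ⟨c, hc, hs, g, hg⟩ := hp
    have hm := van_malnormal hc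
    refine ⟨Pool.Agent.Q103.SG.vanS c hc, fun s h => hs s h, index_zero hm fun htop => hg ?_, hm,
      van_absorbing hc⟩
    have : g ∈ Pool.Agent.Q103.SG.vanS c hc := by rw [htop]; trivial
    exact this

end Pool.Agent.Results.MP_8fe54c_gt.BoundarySubgroups
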