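import Pool.Agent.Q24.SG.Num5

/-!
# Betti numbers above the middle of reflection manifolds with boundary: counting simplices with a bad vertex

Let `G` be a finite graph. If the flag complex of `G` is a full subcomplex of a flag triangulated `(n-1)`-sphere `L`
then a regular neighbourhood of the Davis complex of `W G` in the Davis manifold of `L`, divided by a torsion-free
subgroup `H` of finite index of `W G`, is a compact aspherical `n`-manifold with boundary, with fundamental group `H`.

The results on the vanishing of the `ℓ²`-Betti numbers above the middle need that the links of the vertices, with few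
exceptions, belong to a class of good complexes. Here the set `Q` of the exceptional vertices is arbitrary, and we
bound the failure: for any linear order of the vertices the `i`-th normalised Betti number, `i > n / 2 = m + 1`, is at
most `c_i / 2^i`, where `c_i` is the number of the cliques with `i` elements whose largest element is bad. The other
vertices are only required to have good lower links (the full subcomplex on the smaller neighbours) or to be in an
initial segment in the class `AR (2 m + 2)`. If all vertices outside a set `Q` have good links and the vertices of `Q`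
come first then `c_i` is the number of the cliques with `i` elements inside `Q`.
-/

set_option autoImplicit false

namespace Pool.Agent.Results.MP_8fe54c_gt.CountingBadCliques

open Pool.Agent.W907.SG Pool.Agent.TH652.Above Pool.Agent.Q24.SG Pool.Agent.Y132.SI

/-- the number of the cliques of `G` with `i` elements whose largest element is in `Q` -/
noncomputable def badCliques {V : Type} [LinearOrder V] (G : SimpleGraph V) (Q : Set V) (i : ℕ) : ℕ :=
  {T : Finset V | G.IsClique (T : Set V) ∧ T.card = i ∧ ∃ v ∈ T, v ∈ Q ∧ ∀ u ∈ T, u ≤ v}.ncard

theorem pnum_eq {V : Type} [LinearOrder V] (G : SimpleGraph V) (Q : Set V) (i : ℕ) :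
    pnum G Q Set.univ i = badCliques G Q i := by
  unfold pnum badCliques
  congr 1
  ext T
  exact ⟨fun h => ⟨h.1, h.2.2⟩, fun h => ⟨h.1, Set.subset_univ _, h.2⟩⟩

/-- Let `G` be a finite graph with a linear order of its vertices, `S` an initial segment which spans a graph in the
class `AR (2 m + 2)` (for example `S = ∅`), and `Q` a set of vertices such that for every vertex `v` outside `S` and
`Q` the full subgraph on the neighbours `u < v` of `v` is in the class `AR (2 m + 1)`. Let `c_i` be the number of the
cliques with `i` elements and largest element in `Q`. For each `ε > 0` there is a finite set `E` of nontrivial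
elements of `W G` such that `b_i(H) ≤ (c_i / 2^i + ε) [W G : H]` for all `i > m + 1` and every subgroup `H` of finite
index of `W G` which contains no conjugate of an element of `E`; `b_i(H)` is the dimension of the space of the
`H`-invariant real harmonic `i`-chains of the Davis complex. -/
theorem result : ∀ (m : ℕ) (V : Type) [Fintype V] [LinearOrder V] (G : SimpleGraph V),
    ∀ S Q : Set V, (∀ a ∈ S, ∀ b, b ≤ a → b ∈ S) → AR (2 * m + 2) (G.induce S) →
    (∀ v, v ∉ S → v ∉ Q → AR (2 * m + 1) (G.induce {u | u < v ∧ G.Adj v u})) →
    ∀ ε : ℝ, 0 < ε → ∃ E : Finset (W G), (1 : W G) ∉ E ∧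
      ∀ H : Subgroup (W G), H.FiniteIndex → (∀ g ∈ E, ∀ x : W G, x * g * x⁻¹ ∉ H) → ∀ i : ℕ, m + 1 < i →
        (Module.finrank ℝ (HInv G H i) : ℝ) ≤ ((badCliques G Q i : ℝ) / 2 ^ i + ε) * H.index := by
  intro m V _ _ G S Q h1 h2 h3 ε hε
  obtain ⟨E, h4, h5⟩ := pay_above (hyp_AR h1 h2 h3) Finset.univ ε hε
  refine ⟨E, h4, fun H hfin hE i hi => ?_⟩
  have h6 := h5 H hfin hE i (by omega)
  rw [HInvOn_univ, Finset.coe_univ, pnum_eq] at h6
  exact h6

end Pool.Agent.Results.MP_8fe54c_gt.CountingBadCliques
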