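import Pool.Agent.Q24.SG.Bad

/-!
# Vanishing above the middle dimension for reflection manifolds with boundary with few bad links

Let `G` be a finite graph. If the flag complex of `G` is a full subcomplex of a flag triangulated `(n-1)`-sphere `L`
then a regular neighbourhood of the Davis complex of `W G` in the Davis manifold of `L`, divided by a torsion-free
subgroup `H` of finite index of `W G`, is a compact aspherical `n`-manifold with boundary, with fundamental group `H`.

The starting files treat the classes `Cls n` and `AQ n` of graphs, which contain the graphs of the barycentric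
subdivisions of all triangulated `(n-1)`-spheres and their full subgraphs. The class `AR n` contains `AQ n` and has
two more rules:

* if `n = 2 m` and all cliques `T` of `G` with `m + 1` elements satisfy `|V| < 3 (m + 1) + |{common neighbours of T}|`
  (for example, if `G` has at most `3 m + 2` vertices), then `G` is in the class;
* if `n = 2 m + 2`, the full subgraph on a set `B` of vertices is in the class `AR (2 m + 2)`, and the links of the
  vertices outside `B` are in the class `AR (2 m + 1)`, then `G` is in the class.

So for even `n` a graph all of whose vertex links, with at most `(3 n + 4) / 2` exceptions, are in the class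
`AR (n - 1)`, is in the class `AR n`. There is no condition on the exceptional links.
-/

set_option autoImplicit false

namespace Pool.Agent.Results.MP_8fe54c_gt.FewBadLinks

open Pool.Agent.W907.SG Pool.Agent.TH652.Above Pool.Agent.Q24.SG Pool.Agent.Y132.SI

/-- (1) Let the finite graph `G` be in the class `AR n`. There are no nonzero `ℓ²` harmonic `i`-chains on the Davis
complex of `W G` for `i > n / 2`, and for each `ε > 0` there is a finite set `E` of nontrivial elements of `W G` such
that for every subgroup `H` of finite index which contains no conjugate of an element of `E`, and for all `i > n / 2`,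
the `i`-th real Betti number of `H` (the dimension of the space of the `H`-invariant real harmonic `i`-chains of the
Davis complex) is at most `ε [W G : H]`.
(2) Let `B` be a set of vertices such that `|B| < 3 (m + 2) + |{common neighbours of T in B}|` for all cliques
`T ⊆ B` with `m + 2` elements (for example any set with at most `3 m + 5` elements). If the links of all vertices
outside `B` are in the class `AR (2 m + 1)`, then `G` is in the class `AR (2 m + 2)`. -/
theorem result :
    (∀ (n : ℕ) (V : Type) [Fintype V] [LinearOrder V] (G : SimpleGraph V), AR n G →
      (∀ i : ℕ, n < 2 * i → L2Van G i) ∧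
      ∀ ε : ℝ, 0 < ε → ∃ E : Finset (W G), (1 : W G) ∉ E ∧
        ∀ H : Subgroup (W G), H.FiniteIndex → (∀ g ∈ E, ∀ x : W G, x * g * x⁻¹ ∉ H) →
          ∀ i : ℕ, n < 2 * i → (Module.finrank ℝ (HInv G H i) : ℝ) ≤ ε * H.index) ∧
    (∀ (m : ℕ) (V : Type) [Finite V] (G : SimpleGraph V) (B : Set V),
      (∀ T : Finset V, G.IsClique (T : Set V) → (T : Set V) ⊆ B → T.card = m + 2 →
        B.ncard < 3 * (m + 2) + {u : V | u ∈ B ∧ ∀ t ∈ T, G.Adj t u}.ncard) →
      (∀ v, v ∉ B → AR (2 * m + 1) (G.induce (G.neighborSet v))) → AR (2 * m + 2) G) := by
  refine ⟨fun n V _ _ G hA => ⟨fun i hi => above_AR hA i hi, fun ε hε => ?_⟩, fun m V _ G B hB hl =>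
    AR.loc G B (AR_fewOn (m := m + 1) hB) hl⟩
  obtain ⟨E, h1, h2⟩ := growth_set G {i | n < 2 * i} (fun i hi => above_AR hA i hi) ε hε
  exact ⟨E, h1, fun H hfin hE i hi => h2 H hfin hE i hi⟩

end Pool.Agent.Results.MP_8fe54c_gt.FewBadLinks
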