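import Pool.Agent.Q103.SG.LowDeg
import Pool.Agent.Q103.SG.Cat

/-!
# `ℓ²`-Betti numbers of compact aspherical manifolds with boundary, and rank one isometries

Let `M` be a compact aspherical `n`-manifold with non-empty boundary and infinite fundamental group
`G`, `n ≥ 2`.  Suppose that `G` acts geometrically on a proper geodesically complete CAT(0) space (of
any dimension) without rank one isometries.  Theorem: `b_k(M) = 0` for `k ≤ 1` and for `k ≥ n - 1`.
In particular for `n ≤ 4` the conjecture of Okun and Schreve holds for `M`: `b_k(M) = 0` for all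
`k > n / 2`; moreover `χ(M) ≥ 0`, with equality if and only if all `ℓ²`-Betti numbers of `M` vanish,
`χ(M) = 0` if `n ≤ 3`, and `b_2(M) = χ(M)` if `n = 4`.

Algebraic form.  The cellular chain complex of the universal covering is a finite free resolution of
`ℤ`.  Poincaré-Lefschetz duality and the vanishing of `H_1` of the universal covering say that
`H^n(G; ℤ[G]) = 0` and that `H^(n-1)(G; ℤ[G])`, up to the orientation character `w`, is the kernel
of the augmentation `ℤ[B] → ℤ`, where `B` is the set of the boundary components of the universal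
covering.  The stabilizers of the elements of `B` are infinite (a compact boundary component of a
contractible non-compact manifold would be a non-trivial cycle).  These are our hypotheses, so the
theorem holds for Poincaré duality pairs, too.

Idea of the proof.  The reduced first `ℓ²`-cohomology of `G` is zero since there are no harmonic
functions of finite energy (starting library `Y34.EL`).  Key lemma (`coc_zero`): if the reduced first
`ℓ²`-cohomology vanishes then a cocycle `G → ℓ²(G)` which vanishes on an infinite subgroup is zero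
(not only a limit of coboundaries).  For the closed space of all cocycles which vanish on the subgroup
is contained in the closure of the coboundaries and meets the coboundaries only in zero, so its von
Neumann dimension is zero.  Hence there are no equivariant maps from `ker (ℤ[B] → ℤ)` to `ℓ²(G)`
except zero, and by duality there are no harmonic cochains in degree `n - 1`.
-/

set_option autoImplicit false

namespace Pool.Agent.Results.MP_8fe54c_gt.RankOneOrAboveMiddle

open scoped Matrix

/-- `(c, D, ε)` is a finite free resolution of the trivial module `ℤ`: the module in degree `i` is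
`ℤ[G]^(c i)` (row vectors), the boundary operators are `v ↦ v D_i`, and `c i = 0` for `i > m`. -/
structure IsFiniteFreeResolution {G : Type} [Group G] (c : ℕ → ℕ)
    (D : ∀ i, Matrix (Fin (c (i + 1))) (Fin (c i)) (MonoidAlgebra ℤ G))
    (ε : (Fin (c 0) → MonoidAlgebra ℤ G) →+ ℤ) (m : ℕ) : Prop where
  bounded : ∀ i, m < i → c i = 0
  surjective : Function.Surjective ε
  equivariant : ∀ (g : G) (v : Fin (c 0) → MonoidAlgebra ℤ G), ε (MonoidAlgebra.of ℤ G g • v) = ε v
  exact_zero : ∀ v, ε v = 0 ↔ ∃ u, u ᵥ* D 0 = v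
  exact_succ : ∀ (i : ℕ) (v : Fin (c (i + 1)) → MonoidAlgebra ℤ G),
    v ᵥ* D i = 0 ↔ ∃ u, u ᵥ* D (i + 1) = v

/-- The Euler characteristic `∑ (-1)^i c_i`. -/
def eulerCharacteristic (c : ℕ → ℕ) (m : ℕ) : ℤ := ∑ i ∈ Finset.range (m + 1), (-1) ^ i * (c i : ℤ)

/-- The Hilbert space `ℓ²(G)` (with real scalars). -/
abbrev EllTwo (G : Type) : Type := lp (fun _ : G => ℝ) 2

/-- The Hilbert space `ℓ²(G)^k` of the `ℓ²`-cochains on `ℤ[G]^k`. -/
abbrev Cochains (G : Type) (k : ℕ) : Type := PiLp 2 (fun _ : Fin k => EllTwo G)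

/-- The action of the group ring: `(r f)(x) = ∑_g r_g f(g⁻¹ x)`. -/
noncomputable def act {G : Type} [Group G] (r : MonoidAlgebra ℤ G) (f : G → ℝ) (x : G) : ℝ :=
  r.coeff.sum fun g k => (k : ℝ) * f (g⁻¹ * x)

/-- `z` is the coboundary of `y` for the boundary operator `v ↦ v D`. -/
def IsCoboundary {G : Type} [Group G] {a b : ℕ} (D : Matrix (Fin b) (Fin a) (MonoidAlgebra ℤ G))
    (y : Cochains G a) (z : Cochains G b) : Prop :=
  ∀ (j : Fin b) (x : G), z j x = ∑ k, act (D j k) (y k) x

/-- The harmonic `ℓ²`-cochains in degree `i` (a closed subspace isomorphic to the reduced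
`ℓ²`-(co)homology): the coboundary of `u` is zero, and `u` is orthogonal to all coboundaries. -/
def Harmonic {G : Type} [Group G] (c : ℕ → ℕ)
    (D : ∀ i, Matrix (Fin (c (i + 1))) (Fin (c i)) (MonoidAlgebra ℤ G)) :
    ∀ i, Set (Cochains G (c i))
  | 0 => {u | IsCoboundary (D 0) u 0}
  | (i + 1) => {u | IsCoboundary (D (i + 1)) u 0 ∧ ∀ y z, IsCoboundary (D i) y z → inner ℝ z u = 0}

open scoped Classical in
/-- The von Neumann dimension of the closed linear span `W'` of `W ⊆ ℓ²(G)^k`:
`∑_j ⟨P e_j, e_j⟩`, where `P` is the orthogonal projection to `W'` and `e_j` is the unit vector at the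
identity element in the `j`-th component. -/
noncomputable def vonNeumannDim {G : Type} [Group G] {k : ℕ} (W : Set (Cochains G k)) : ℝ :=
  haveI : CompleteSpace (Submodule.span ℝ W).topologicalClosure :=
    (Submodule.span ℝ W).isClosed_topologicalClosure.completeSpace_coe
  ∑ j : Fin k, (Submodule.span ℝ W).topologicalClosure.starProjection
    (WithLp.toLp 2 (Pi.single j (lp.single 2 (1 : G) (1 : ℝ)))) j 1

/-- The `i`-th `ℓ²`-Betti number. -/
noncomputable def l2Betti {G : Type} [Group G] (c : ℕ → ℕ)
    (D : ∀ i, Matrix (Fin (c (i + 1))) (Fin (c i)) (MonoidAlgebra ℤ G)) (i : ℕ) : ℝ :=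
  vonNeumannDim (Harmonic c D i)

/-- Cocycles with coefficients in `ℤ[G]`: a column vector `u` stands for the equivariant cochain
`v ↦ v ⬝ u`, and its coboundary is `D u`. -/
def IsCocycle {G : Type} [Group G] {b d : ℕ} (D : Matrix (Fin d) (Fin b) (MonoidAlgebra ℤ G))
    (u : Fin b → MonoidAlgebra ℤ G) : Prop := D *ᵥ u = 0

/-- The augmentation `ℤ[B] → ℤ`. -/
def augmentation {B : Type} (z : B →₀ ℤ) : ℤ := z.sum fun _ k => k

/-- The map `z ↦ w(g) g⁻¹ z` of `ℤ[B]`. -/
noncomputable def twist {G : Type} [Group G] (w : G →* ℤˣ) {B : Type} [MulAction G B] (g : G)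
    (z : B →₀ ℤ) : B →₀ ℤ := ((w g : ℤˣ) : ℤ) • Finsupp.mapDomain (fun p => g⁻¹ • p) z

/-- The multiplication of a column vector by `g` from the right. -/
noncomputable def rightMul {G : Type} [Group G] {b : ℕ} (u : Fin b → MonoidAlgebra ℤ G) (g : G) :
    Fin b → MonoidAlgebra ℤ G := fun j => u j * MonoidAlgebra.of ℤ G g

/-- Lefschetz duality in the degrees `n` and `n - 1`, where `D₁`, `D₀` are the boundary operators in
the degrees `n` and `n - 1`: `H^n(G; ℤ[G]) = 0`, and `θ` induces an isomorphism of `H^(n-1)(G; ℤ[G])`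
with the kernel of the augmentation `ℤ[B] → ℤ`, where `g ∈ G` acts on the cohomology by right
multiplication and on `ℤ[B]` by `z ↦ w(g) g⁻¹ z`. -/
structure BoundaryDuality {G : Type} [Group G] {a b d : ℕ}
    (D₀ : Matrix (Fin b) (Fin a) (MonoidAlgebra ℤ G))
    (D₁ : Matrix (Fin d) (Fin b) (MonoidAlgebra ℤ G)) (w : G →* ℤˣ) (B : Type)
    [MulAction G B] : Prop where
  top : ∀ y, ∃ u, D₁ *ᵥ u = y
  next : ∃ θ : (Fin b → MonoidAlgebra ℤ G) → (B →₀ ℤ),
    (∀ u v, IsCocycle D₁ u → IsCocycle D₁ v → θ (u + v) = θ u + θ v) ∧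
    (∀ u, IsCocycle D₁ u → (θ u = 0 ↔ ∃ t, D₀ *ᵥ t = u)) ∧
    (∀ z, (∃ u, IsCocycle D₁ u ∧ θ u = z) ↔ augmentation z = 0) ∧
    ∀ g u, IsCocycle D₁ u → θ (rightMul u g) = twist w g (θ u)

/-- The group of cocycles (used in the proof). -/
def cocycles {G : Type} [Group G] {b d : ℕ} (D : Matrix (Fin d) (Fin b) (MonoidAlgebra ℤ G)) :
    AddSubgroup (Fin b → MonoidAlgebra ℤ G) where
  carrier := {u | D *ᵥ u = 0}
  add_mem' {u v} hu hv := by
    change D *ᵥ (u + v) = 0
    rw [Matrix.mulVec_add, hu, hv, add_zero]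
  zero_mem' := Matrix.mulVec_zero _
  neg_mem' {u} hu := by
    change D *ᵥ (-u) = 0
    rw [Matrix.mulVec_neg, hu, neg_zero]

/-- The conclusions in dimension `n = q + 2`, with `b_i` the `ℓ²`-Betti numbers and `χ` the Euler
characteristic of the complex `(c, D)`:
* `b_i = 0` for `i ≤ 1` and for `i ≥ n - 1`, and `χ = ∑_(2 ≤ i ≤ n - 2) (-1)^i b_i`;
* if `n ≤ 4` then `b_i = 0` for all `i > n / 2`, and `χ ≥ 0`, with equality if and only if all `b_i`
  are zero;
* if `n ≤ 3` then `χ = 0`, and if `n = 4` then `b_2 = χ`. -/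
structure Vanishing {G : Type} [Group G] (q : ℕ) (c : ℕ → ℕ)
    (D : ∀ i, Matrix (Fin (c (i + 1))) (Fin (c i)) (MonoidAlgebra ℤ G)) : Prop where
  outer : ∀ i, i ≤ 1 ∨ q + 1 ≤ i → l2Betti c D i = 0
  euler : (eulerCharacteristic c (q + 2) : ℝ) = ∑ i ∈ Finset.Icc 2 q, (-1) ^ i * l2Betti c D i
  above : q + 2 ≤ 4 → ∀ i, q + 2 < 2 * i → l2Betti c D i = 0
  nonneg : q + 2 ≤ 4 → 0 ≤ eulerCharacteristic c (q + 2)
  zero : q + 2 ≤ 4 → (eulerCharacteristic c (q + 2) = 0 ↔ ∀ i, l2Betti c D i = 0)
  three : q + 2 ≤ 3 → eulerCharacteristic c (q + 2) = 0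
  four : q + 2 = 4 → l2Betti c D 2 = eulerCharacteristic c (q + 2)

/-- The inequality of Bruhat and Tits: a complete metric space is CAT(0) if and only if any two
points `p`, `q` have a midpoint `m` such that
`d(x, m)² ≤ (d(x, p)² + d(x, q)²) / 2 - d(p, q)² / 4` for all `x`. -/
def BruhatTits (X : Type*) [MetricSpace X] : Prop := ∀ p q : X, ∃ m : X, ∀ x : X,
  dist x m ^ 2 ≤ (dist x p ^ 2 + dist x q ^ 2) / 2 - dist p q ^ 2 / 4

/-- Every geodesic segment extends to a geodesic line: for `p ≠ q` there is a line through `p` and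
`q` (in a CAT(0) space it contains the unique geodesic segment from `p` to `q`). -/
def GeodesicallyComplete (X : Type*) [MetricSpace X] : Prop :=
  ∀ p q : X, p ≠ q → ∃ c : ℝ → X, Isometry c ∧ c 0 = p ∧ c (dist p q) = q

/-- The line `c` bounds a flat half-plane: there is an isometric embedding `H` of the Euclidean
half-plane `ℝ × [0, ∞)` in `X` which extends `c`. -/
def BoundsHalfPlane {X : Type*} [MetricSpace X] (c : ℝ → X) : Prop :=
  ∃ H : ℝ × NNReal → X,
    (∀ p q : ℝ × NNReal, dist (H p) (H q) ^ 2 = (p.1 - q.1) ^ 2 + ((p.2 : ℝ) - q.2) ^ 2) ∧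
    ∀ t : ℝ, H (t, 0) = c t

/-- `g` is a rank one isometry of `X`: it translates a geodesic line `c` by `τ > 0`, and this axis
does not bound a flat half-plane. -/
def IsRankOne (X : Type*) [MetricSpace X] {G : Type*} [Group G] [MulAction G X] (g : G) : Prop :=
  ∃ (τ : ℝ) (c : ℝ → X), 0 < τ ∧ Isometry c ∧ (∀ t, g • c t = c (t + τ)) ∧ ¬ BoundsHalfPlane c

section bridge

open Pool.Agent.Q103.SG Pool.Agent.Helper386.PD3

variable {G : Type} [Group G]

theorem la_eq_act (r : RR G) (f : L2 G) (x : G) : la r f x = act r f x := by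
  induction r using rr_ind with
  | h1 g =>
    rw [la_of, act]
    change f (g⁻¹ * x) = (Finsupp.single g (1 : ℤ)).sum fun g k => (k : ℝ) * f (g⁻¹ * x)
    rw [Finsupp.sum_single_index (by simp)]
    simp
  | h2 r s hr hs =>
    rw [la_add]
    change la r f x + la s f x = _
    rw [hr, hs, act, act, act, MonoidAlgebra.coeff_add, Finsupp.sum_add_index']
    · intro g
      simp
    · intro g k l
      push_cast
      ring
  | h3 r hr =>
    rw [map_neg]
    change -(la r f x) = _
    rw [hr, act, act, MonoidAlgebra.coeff_neg, Finsupp.sum_neg_index (by simp), Finsupp.sum,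
      Finsupp.sum, ← Finset.sum_neg_distrib]
    refine Finset.sum_congr rfl fun g _ => ?_
    push_cast
    ring

theorem isCoboundary_iff {a b : ℕ} (D : Matrix (Fin b) (Fin a) (RR G)) (y : VV G a) (z : VV G b) :
    IsCoboundary D y z ↔ z = cob D y := by
  have h1 : ∀ j x, (cob D y) j x = ∑ k, act (D j k) (y k) x := by
    intro j x
    rw [cob_apply, pr]
    have : (∑ k, la (D j k) (y k) : L2 G) x = ∑ k, (la (D j k) (y k)) x :=
      map_sum (lp.evalCLM ℝ (fun _ : G => ℝ) 2 x) _ _
    rw [this]
    exact Finset.sum_congr rfl fun k _ => la_eq_act _ _ _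
  constructor
  · intro h
    apply vv_ext
    intro j
    ext x
    rw [h1]
    exact h j x
  · rintro rfl j x
    exact h1 j x

theorem harmonic_eq (c : ℕ → ℕ) (D : ∀ i, Matrix (Fin (c (i + 1))) (Fin (c i)) (RR G)) (i : ℕ) :
    Harmonic c D i = (Hm c D i : Set (VV G (c i))) := by
  cases i with
  | zero =>
    ext u
    change IsCoboundary (D 0) u 0 ↔ cob (D 0) u = 0 ∧ _
    rw [isCoboundary_iff]
    constructor
    · intro h
      exact ⟨h.symm, fun y => inner_zero_left _⟩
    · intro h
      exact h.1.symm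
  | succ i =>
    ext u
    change (IsCoboundary (D (i + 1)) u 0 ∧ ∀ y z, IsCoboundary (D i) y z → inner ℝ z u = 0) ↔
      cob (D (i + 1)) u = 0 ∧ ∀ y, inner ℝ (cob (D i) y) u = 0
    rw [isCoboundary_iff]
    constructor
    · intro h
      exact ⟨h.1.symm, fun y => h.2 y _ ((isCoboundary_iff _ _ _).2 rfl)⟩
    · intro h
      refine ⟨h.1.symm, fun y z hz => ?_⟩
      rw [(isCoboundary_iff _ _ _).1 hz]
      exact h.2 y

theorem dim_eq {k : ℕ} (W : Submodule ℝ (VV G k)) : vonNeumannDim (W : Set (Cochains G k)) = vd W := by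
  have h : vonNeumannDim (W : Set (Cochains G k)) = vd (Submodule.span ℝ (W : Set (VV G k))) := rfl
  rw [h, Submodule.span_eq W]

theorem betti_eq (c : ℕ → ℕ) (D : ∀ i, Matrix (Fin (c (i + 1))) (Fin (c i)) (RR G)) (i : ℕ) :
    l2Betti c D i = vd (Hm c D i) := by
  rw [l2Betti, harmonic_eq, dim_eq]

end bridge

/-- **Vanishing above the middle dimension, or a rank one isometry.**  Let `(c, D, ε)` be a finite
free resolution of `ℤ` over `ℤ[G]` of length at most `n = q + 2`, for instance the cellular chain
complex of the universal covering of a compact aspherical `n`-manifold `M` with non-empty boundary.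
Suppose that Lefschetz duality holds in the degrees `n`, `n - 1`, where `B` is a non-empty `G`-set with
infinite stabilizers (the set of the boundary components of the universal covering).  Let `G` act
geometrically on a proper geodesically complete CAT(0) space `X`.  Then `G` contains a rank one
isometry of `X`, or `b_i = 0` for `i ≤ 1` and for `i ≥ n - 1`, with the further conclusions listed at
`Vanishing`. -/
theorem result {q : ℕ} {G : Type} [Group G] {c : ℕ → ℕ}
    {D : ∀ i, Matrix (Fin (c (i + 1))) (Fin (c i)) (MonoidAlgebra ℤ G)}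
    {ε : (Fin (c 0) → MonoidAlgebra ℤ G) →+ ℤ} (hD : IsFiniteFreeResolution c D ε (q + 2))
    {B : Type} [Nonempty B] [MulAction G B] (hB : ∀ p : B, Infinite (MulAction.stabilizer G p))
    (w : G →* ℤˣ) (hdual : BoundaryDuality (D q) (D (q + 1)) w B)
    {X : Type*} [MetricSpace X] [ProperSpace X] [Nonempty X] (hX : BruhatTits X)
    (hc : GeodesicallyComplete X) [MulAction G X] [IsIsometricSMul G X]
    [ProperlyDiscontinuousSMul G X]
    (hcc : ∃ K : Set X, IsCompact K ∧ ∀ x : X, ∃ g : G, g • x ∈ K) :
    (∃ g : G, IsRankOne X g) ∨ Vanishing q c D := by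
  have hgeo : Pool.Agent.Y34.HB.Geo X G := ⟨inferInstance, inferInstance, inferInstance, hcc, hX⟩
  by_cases hno : ∀ g : G, ¬ Pool.Agent.Y34.EL.RankOne X g
  · right
    have hA : Pool.Agent.Q103.SG.Approx G := fun b hb T δ hδ =>
      Pool.Agent.Q103.SG.approx_of_geo hgeo hc hno (Classical.arbitrary X) b hb T δ hδ
    have hfg : Group.FG G := Pool.Agent.Q103.SG.fg_of_geo hgeo (Classical.arbitrary X)
    have hR : Pool.Agent.Helper158.Reso (fun i => Fin (c i) → MonoidAlgebra ℤ G)
        (Pool.Agent.Q103.SG.bd c D) ε :=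
      ⟨hD.surjective, hD.equivariant, hD.exact_zero, hD.exact_succ⟩
    have hst := hB (Classical.arbitrary B)
    have hinf : Infinite G := Infinite.of_injective
      (Subtype.val : MulAction.stabilizer G (Classical.arbitrary B) → G) Subtype.val_injective
    have h1 : ∀ i, i ≤ 1 ∨ q + 1 ≤ i → l2Betti c D i = 0 := by
      intro i hi
      rw [betti_eq]
      refine Pool.Agent.Q103.SG.vd_bot ?_
      by_cases hi1 : i ≤ 1
      · exact Pool.Agent.Q103.SG.free_low c D hA hR i hi1
      · have hq : q + 1 ≤ i := hi.resolve_left hi1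
        rcases Nat.lt_or_ge i (q + 2) with h2 | h2
        · obtain rfl : i = q + 1 := by omega
          intro x hx
          obtain ⟨θ, t0, t1, t2, t3⟩ := hdual.next
          refine Pool.Agent.Q103.SG.bdry_one w hA hfg hB hdual.top (cocycles (D (q + 1)))
            (fun _ => Iff.rfl) (AddMonoidHom.mk' (fun u => θ u.1)
              fun u v => t0 u.1 v.1 u.2 v.2) (fun u hu => (t1 u.1 u.2).1 hu) ?_ ?_ hx.1 hx.2
          · intro z
            refine Iff.trans ?_ (t2 z)
            constructor
            · rintro ⟨u, hu⟩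
              exact ⟨u.1, u.2, hu⟩
            · rintro ⟨u, h, hu⟩
              exact ⟨⟨u, h⟩, hu⟩
          · intro g u u' h
            have h1 := t3 g u.1 u.2
            have h2 : rightMul u.1 g = u'.1 := funext fun j => (h j).symm
            rw [h2] at h1
            exact h1
        · rcases Nat.lt_or_ge i (q + 3) with h3 | h3
          · obtain rfl : i = q + 2 := by omega
            intro x hx
            exact Pool.Agent.Q103.SG.bdry_zero hdual.top hx.2
          · intro x _
            apply Pool.Agent.Helper386.PD3.vv_ext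
            intro k
            have h8 := k.isLt
            have h9 := hD.bounded i (by omega)
            omega
    have h3 : (eulerCharacteristic c (q + 2) : ℝ) =
        ∑ i ∈ Finset.Icc 2 q, (-1) ^ i * l2Betti c D i := by
      have e1 : (eulerCharacteristic c (q + 2) : ℝ) =
          ∑ i ∈ Finset.range (q + 3), (-1 : ℝ) ^ i * l2Betti c D i := by
        rw [eulerCharacteristic]
        push_cast
        rw [Pool.Agent.Q103.SG.free_euler c D hR (q + 2) hD.bounded]
        exact Finset.sum_congr rfl fun i _ => by rw [betti_eq]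
      rw [e1]
      symm
      refine Finset.sum_subset (fun i hi => ?_) fun i _ hi => ?_
      · rw [Finset.mem_Icc] at hi
        rw [Finset.mem_range]
        omega
      · rw [h1 i (by rw [Finset.mem_Icc] at hi; omega), mul_zero]
    have h0 : ∀ i, 0 ≤ l2Betti c D i := by
      intro i
      rw [betti_eq]
      exact Pool.Agent.Q103.SG.vd_nonneg _
    have h4 : q + 2 = 4 → l2Betti c D 2 = eulerCharacteristic c (q + 2) := by
      intro hq
      obtain rfl : q = 2 := by omega
      rw [h3]
      simp
    have h5 : q + 2 ≤ 3 → eulerCharacteristic c (q + 2) = 0 := by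
      intro hq
      have : Finset.Icc 2 q = ∅ := Finset.Icc_eq_empty (by omega)
      rw [this, Finset.sum_empty] at h3
      exact_mod_cast h3
    have h7 : q + 2 ≤ 4 → 0 ≤ eulerCharacteristic c (q + 2) ∧
        (eulerCharacteristic c (q + 2) = 0 ↔ ∀ i, l2Betti c D i = 0) := ?_
    · exact ⟨h1, h3, fun hq i hi => h1 i (by omega), fun hq => (h7 hq).1, fun hq => (h7 hq).2,
        h5, h4⟩
    intro hq
    rcases Nat.lt_or_ge (q + 2) 4 with hlt | hge
    · have h6 := h5 (by omega)
      exact ⟨h6.ge, fun _ i => h1 i (by omega), fun _ => h6⟩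
    · have hq4 : q + 2 = 4 := by omega
      have h5 := h4 hq4
      have h6 : 0 ≤ (eulerCharacteristic c (q + 2) : ℝ) := by rw [← h5]; exact h0 2
      refine ⟨by exact_mod_cast h6, fun h => ?_, fun h => ?_⟩
      · intro i
        by_cases hi : i = 2
        · subst hi
          rw [h5, h]
          simp
        · exact h1 i (by omega)
      · have h7 := h 2
        rw [h5] at h7
        exact_mod_cast h7
  · left
    push Not at hno
    obtain ⟨g, τ, c, hτ, hc, he⟩ := hno
    refine ⟨g, τ, c, hτ, hc.1, hc.2, ?_⟩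
    rintro ⟨H, hH⟩
    have : H ∈ Pool.Agent.Y34.HB.HP c := hH
    rw [he] at this
    exact this

end Pool.Agent.Results.MP_8fe54c_gt.RankOneOrAboveMiddle
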